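import Pool.Agent.Work.MP_cf6fa9_co.Finite

set_option autoImplicit false

namespace Pool.Agent.Results.MP_cf6fa9_co.GapGrowth

open Finset Filter

/-- The Euclidean plane. -/
abbrev Plane := EuclideanSpace ℝ (Fin 2)

open Classical in
/-- The multiplicity of the distance `r` in `X`: the number of unordered pairs of distinct points of
`X` at distance `r` (half of the number of ordered pairs). -/
noncomputable def mult (X : Finset Plane) (r : ℝ) : ℕ :=
  (X.offDiag.filter (fun p => dist p.1 p.2 = r)).card / 2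

open Classical in
/-- The distinct distances between pairs of distinct points of `X`. -/
noncomputable def distances (X : Finset Plane) : Finset ℝ :=
  X.offDiag.image (fun p => dist p.1 p.2)

/-- The multiplicities of the distinct distances of `X`, in non-increasing order. -/
noncomputable def multList (X : Finset Plane) : List ℕ :=
  ((distances X).val.map (mult X)).sort (fun a b => b ≤ a)

/-- `a X k` is the `k`-th largest multiplicity (`0` if there are fewer than `k` distances). -/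
noncomputable def a (X : Finset Plane) (k : ℕ) : ℕ := (multList X).getD (k - 1) 0

/-- The maximal gap `a₁(X) - a₂(X)` over all `n`-point sets `X` of the plane. -/
noncomputable def D (n : ℕ) : ℕ :=
  sSup {m : ℕ | ∃ X : Finset Plane, X.card = n ∧ m = a X 1 - a X 2}

open Pool.Agent.Work.MP_cf6fa9_co in
lemma PP_eq (X : Finset Plane) (r : ℝ) (hr : 0 < r) : by
    classical exact PP X X r = (X.offDiag.filter (fun p => dist p.1 p.2 = r)).card := by
  classical
  unfold PP
  congr 1
  ext q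
  simp only [mem_filter, mem_product, mem_offDiag]
  constructor
  · rintro ⟨⟨h1, h2⟩, h3⟩
    refine ⟨⟨h1, h2, ?_⟩, h3⟩
    intro h
    rw [h, dist_self] at h3
    linarith
  · rintro ⟨⟨h1, h2, _⟩, h3⟩
    exact ⟨⟨h1, h2⟩, h3⟩

lemma mem_distances {X : Finset Plane} {r : ℝ} (h : r ∈ distances X) : 0 < r := by
  classical
  unfold distances at h
  rw [mem_image] at h
  obtain ⟨q, hq, rfl⟩ := h
  rw [mem_offDiag] at hq
  exact dist_pos.2 hq.2.2

/-- A uniform gap below the distance `1` gives a gap between the two largest multiplicities. -/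
lemma gap_le (X : Finset Plane) (g : ℕ) (hg : 1 ≤ g)
    (h : ∀ r, 0 < r → r ≠ 1 → mult X r + g ≤ mult X 1) : g ≤ a X 1 - a X 2 := by
  classical
  by_cases h1 : (1 : ℝ) ∈ distances X
  · have hval : (distances X).val = 1 ::ₘ ((distances X).erase 1).val := by
      rw [← Finset.insert_val_of_notMem (Finset.notMem_erase _ _), Finset.insert_erase h1]
    have hlist : multList X = mult X 1 ::
        (((distances X).erase 1).val.map (mult X)).sort (fun a b => b ≤ a) := by
      unfold multList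
      rw [hval, Multiset.map_cons, Multiset.sort_cons]
      intro b hb
      rw [Multiset.mem_map] at hb
      obtain ⟨r, hr, rfl⟩ := hb
      rw [Finset.mem_val, Finset.mem_erase] at hr
      have := h r (mem_distances hr.2) hr.1
      omega
    have ha1 : a X 1 = mult X 1 := by
      unfold a
      rw [hlist]
      simp
    have ha2 : a X 2 + g ≤ mult X 1 := by
      unfold a
      rw [hlist]
      simp only [Nat.add_one_sub_one, List.getD_cons_succ]
      rcases hl : (((distances X).erase 1).val.map (mult X)).sort (fun a b => b ≤ a) with _ | ⟨b, t⟩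
      · simp only [List.getD_nil]
        -- need `g ≤ mult X 1`
        have := h 2 (by norm_num) (by norm_num)
        omega
      · simp only [List.getD_cons_zero]
        have hb : b ∈ (((distances X).erase 1).val.map (mult X)).sort (fun a b => b ≤ a) := by
          rw [hl]; exact List.mem_cons_self
        rw [Multiset.mem_sort, Multiset.mem_map] at hb
        obtain ⟨r, hr, rfl⟩ := hb
        rw [Finset.mem_val, Finset.mem_erase] at hr
        exact h r (mem_distances hr.2) hr.1
    omega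
  · exfalso
    have h0 : mult X 1 = 0 := by
      unfold mult
      have : X.offDiag.filter (fun p => dist p.1 p.2 = 1) = ∅ := by
        rw [Finset.filter_eq_empty_iff]
        intro q hq hd
        apply h1
        unfold distances
        rw [mem_image]
        exact ⟨q, hq, hd⟩
      rw [this]; simp
    have := h 2 (by norm_num) (by norm_num)
    omega

lemma a_le (X : Finset Plane) (k : ℕ) : a X k ≤ X.card ^ 2 := by
  classical
  unfold a
  by_cases hk : k - 1 < (multList X).length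
  · rw [List.getD_eq_getElem _ _ hk]
    have hmem := List.getElem_mem hk
    unfold multList at hmem ⊢
    rw [Multiset.mem_sort, Multiset.mem_map] at hmem
    obtain ⟨r, _, hr⟩ := hmem
    rw [← hr]
    unfold mult
    have h1 := card_filter_le X.offDiag (fun p => dist p.1 p.2 = r)
    have h2 : X.offDiag.card ≤ X.card ^ 2 := by
      rw [offDiag_card, pow_two]
      exact Nat.sub_le _ _
    omega
  · rw [List.getD_eq_default _ _ (not_lt.1 hk)]
    exact Nat.zero_le _

lemma le_D {n g : ℕ} (X : Finset Plane) (hX : X.card = n) (hg : g ≤ a X 1 - a X 2) : g ≤ D n := by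
  refine hg.trans ?_
  apply le_csSup
  · refine ⟨n ^ 2, ?_⟩
    rintro m ⟨Y, hY, rfl⟩
    have := a_le Y 1
    rw [hY] at this
    omega
  · exact ⟨X, hX, rfl⟩

open Pool.Agent.Work.MP_cf6fa9_co in
/-- Finite form of the lower bound. -/
lemma D_lower (k n : ℕ) (hk : 13 ≤ k)
    (hn : 800 * ((4 * ((8 * k) ^ 4) ^ 2 + 1) ^ k) ^ 4 ≤ n)
    (hbig : (6 : ℝ) ≤ n * 2 ^ k / (64 * ((Nat.log 2 n + 1 : ℕ) : ℝ) ^ 3)) :
    (n : ℝ) * 2 ^ k / (256 * ((Nat.log 2 n + 1 : ℕ) : ℝ) ^ 3) ≤ D n := by
  classical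
  obtain ⟨X, hX, hgap⟩ := main_finite k n hk hn
  set G : ℝ := n * 2 ^ k / (64 * ((Nat.log 2 n + 1 : ℕ) : ℝ) ^ 3) with hG
  set g : ℕ := ⌊(G - 1) / 2⌋₊ with hg
  have hg1 : 1 ≤ g := by
    rw [hg]
    apply Nat.le_floor
    push_cast
    linarith
  have hgle : (g : ℝ) ≤ (G - 1) / 2 := Nat.floor_le (by linarith)
  have hggt : (G - 1) / 2 < g + 1 := Nat.lt_floor_add_one _
  have hm : ∀ r, 0 < r → (mult X r : ℝ) ≤ (PP X X r : ℝ) / 2 ∧ ((PP X X r : ℝ) - 1) / 2 ≤ mult X r := by
    intro r hr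
    have e : PP X X r = (X.offDiag.filter (fun p => dist p.1 p.2 = r)).card := PP_eq X r hr
    have h1 : mult X r = PP X X r / 2 := by rw [e]; rfl
    have h2 : 2 * mult X r ≤ PP X X r := by rw [h1]; omega
    have h3 : PP X X r ≤ 2 * mult X r + 1 := by rw [h1]; omega
    have h2' : 2 * (mult X r : ℝ) ≤ PP X X r := by exact_mod_cast h2
    have h3' : (PP X X r : ℝ) ≤ 2 * mult X r + 1 := by exact_mod_cast h3
    constructor <;> linarith
  have hfin : g ≤ D n := by
    apply le_D X hX
    apply gap_le X g hg1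
    intro r hr hr1
    have h1 := hgap r hr hr1
    have h2 := (hm r hr).1
    have h3 := (hm 1 one_pos).2
    have h4 : (mult X r : ℝ) + g ≤ mult X 1 := by linarith
    exact_mod_cast h4
  have hfin' : (g : ℝ) ≤ D n := by exact_mod_cast hfin
  have e : (n : ℝ) * 2 ^ k / (256 * ((Nat.log 2 n + 1 : ℕ) : ℝ) ^ 3) = G / 4 := by
    rw [hG]; ring
  rw [e]
  linarith

lemma ev_conditions : ∀ᶠ n : ℕ in atTop,
    (2 : ℝ) ≤ n ∧ (40 : ℝ) ≤ Real.log (Real.log n) ∧ (0 : ℝ) < Real.log n ∧
      2000 * (Real.log (Real.log n)) ^ 2 ≤ Real.log n := by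
  have hn : Tendsto (fun n : ℕ => (n : ℝ)) atTop atTop := tendsto_natCast_atTop_atTop
  have hu : Tendsto (fun n : ℕ => Real.log n) atTop atTop := Real.tendsto_log_atTop.comp hn
  have hw : Tendsto (fun n : ℕ => Real.log (Real.log n)) atTop atTop :=
    Real.tendsto_log_atTop.comp hu
  have h1 : ∀ᶠ x : ℝ in atTop, ‖Real.log x ^ 2‖ ≤ (1 / 2000) * ‖x‖ := by
    have := (Real.isLittleO_pow_log_id_atTop (n := 2)).def (show (0 : ℝ) < 1 / 2000 by norm_num)
    simpa using this
  have h2 := hu.eventually h1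
  filter_upwards [hn.eventually_ge_atTop 2, hw.eventually_ge_atTop 40, hu.eventually_gt_atTop 0, h2]
    with n a1 a2 a3 a4
  refine ⟨a1, a2, a3, ?_⟩
  rw [Real.norm_of_nonneg (sq_nonneg _), Real.norm_of_nonneg a3.le] at a4
  linarith

/-- There is `c > 0` such that `D n ≥ n ^ (1 + c / log log n)` for all sufficiently large `n`. -/
theorem result : ∃ c : ℝ, 0 < c ∧ ∀ᶠ n : ℕ in Filter.atTop,
    (n : ℝ) ^ (1 + c / Real.log (Real.log n)) ≤ (D n : ℝ) := by
  refine ⟨1 / 256, by norm_num, ?_⟩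
  filter_upwards [ev_conditions] with n hn
  obtain ⟨hn2, hw40, hupos, huw⟩ := hn
  set u : ℝ := Real.log n with hu
  set w : ℝ := Real.log u with hw
  have hnpos : (0 : ℝ) < n := by linarith
  have hexpu : Real.exp u = n := Real.exp_log hnpos
  have hexpw : Real.exp w = u := Real.exp_log hupos
  have hwpos : 0 < w := by linarith
  set k : ℕ := ⌊u / (64 * w)⌋₊ with hk
  have hu64 : 0 ≤ u / (64 * w) := by positivity
  have hk_le : (k : ℝ) ≤ u / (64 * w) := Nat.floor_le hu64
  have hk_gt : u / (64 * w) - 1 < k := by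
    have := Nat.lt_floor_add_one (u / (64 * w))
    rw [← hk] at this
    linarith
  have hratio : 2000 * w ≤ u / w := by
    rw [le_div_iff₀ hwpos]
    nlinarith
  have hdiv : u / (64 * w) = (u / w) / 64 := by
    field_simp
  have hk13' : (13 : ℝ) ≤ k := by
    rw [hdiv] at hk_gt
    linarith
  have hk13 : 13 ≤ k := by exact_mod_cast hk13'
  have hkpos : (0 : ℝ) < k := by linarith
  -- `16 k ≤ u`
  have h16k : 16 * (k : ℝ) ≤ u := by
    rw [hdiv] at hk_le
    have h1 : u / w ≤ u := by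
      rw [div_le_iff₀ hwpos]
      nlinarith
    linarith
  -- size condition
  have hsizeR : (800 : ℝ) * ((4 * ((8 * (k : ℝ)) ^ 4) ^ 2 + 1) ^ k) ^ 4 ≤ n := by
    have h1 : 4 * ((8 * (k : ℝ)) ^ 4) ^ 2 + 1 ≤ (16 * (k : ℝ)) ^ 8 := by
      have hk8 : (1 : ℝ) ≤ (k : ℝ) ^ 8 := one_le_pow₀ (by linarith)
      have e1 : 4 * ((8 * (k : ℝ)) ^ 4) ^ 2 = 67108864 * (k : ℝ) ^ 8 := by ring
      have e2 : (16 * (k : ℝ)) ^ 8 = 4294967296 * (k : ℝ) ^ 8 := by ring
      rw [e1, e2]
      linarith
    have h2 : ((4 * ((8 * (k : ℝ)) ^ 4) ^ 2 + 1) ^ k) ^ 4 ≤ (16 * (k : ℝ)) ^ (32 * k) := by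
      calc ((4 * ((8 * (k : ℝ)) ^ 4) ^ 2 + 1) ^ k) ^ 4 ≤ (((16 * (k : ℝ)) ^ 8) ^ k) ^ 4 := by
            gcongr
        _ = (16 * (k : ℝ)) ^ (32 * k) := by
            rw [← pow_mul, ← pow_mul]
            congr 1
            ring
    have h3 : (16 * (k : ℝ)) ^ (32 * k) ≤ Real.exp (u / 2) := by
      calc (16 * (k : ℝ)) ^ (32 * k) ≤ u ^ (32 * k) := by gcongr
        _ = (Real.exp w) ^ (32 * k) := by rw [hexpw]
        _ = Real.exp ((32 * k : ℕ) * w) := by rw [← Real.exp_nat_mul]
        _ ≤ Real.exp (u / 2) := by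
            apply Real.exp_le_exp.2
            push_cast
            have : (k : ℝ) * w ≤ u / 64 := by
              have h := mul_le_mul_of_nonneg_right hk_le hwpos.le
              have e : u / (64 * w) * w = u / 64 := by field_simp
              rw [e] at h
              exact h
            linarith
    have h4 : (800 : ℝ) ≤ Real.exp (u / 2) := by
      have h5 : (40000 : ℝ) ≤ u := by nlinarith
      have h6 := Real.add_one_le_exp (u / 2)
      linarith
    calc (800 : ℝ) * ((4 * ((8 * (k : ℝ)) ^ 4) ^ 2 + 1) ^ k) ^ 4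
        ≤ Real.exp (u / 2) * Real.exp (u / 2) :=
          mul_le_mul h4 (h2.trans h3) (by positivity) (Real.exp_pos _).le
      _ = n := by
          rw [← Real.exp_add, ← hexpu]
          congr 1
          ring
  have hsize : 800 * ((4 * ((8 * k) ^ 4) ^ 2 + 1) ^ k) ^ 4 ≤ n := by exact_mod_cast hsizeR
  -- the logarithm
  have hlog2 : ((Nat.log 2 n + 1 : ℕ) : ℝ) ≤ 2 * u := by
    have hn0 : n ≠ 0 := by
      rintro rfl
      norm_num at hn2
    have h1 : 2 ^ Nat.log 2 n ≤ n := Nat.pow_log_le_self 2 hn0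
    have h2 : ((2 : ℝ) ^ Nat.log 2 n) ≤ n := by exact_mod_cast h1
    have h3 : Real.log ((2 : ℝ) ^ Nat.log 2 n) ≤ Real.log n := Real.log_le_log (by positivity) h2
    rw [Real.log_pow, ← hu] at h3
    have h4 := Real.log_two_gt_d9
    have h5 : (0 : ℝ) ≤ (Nat.log 2 n : ℝ) := Nat.cast_nonneg _
    have h6 : (0.6931471803 : ℝ) * (Nat.log 2 n : ℝ) ≤ u := by nlinarith
    have h7 : (40000 : ℝ) ≤ u := by nlinarith
    push_cast
    linarith
  have hL : (0 : ℝ) < ((Nat.log 2 n + 1 : ℕ) : ℝ) := by positivity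
  -- the main inequality
  have hmain : (n : ℝ) ^ (1 + 1 / 256 / w) ≤
      (n : ℝ) * 2 ^ k / (256 * ((Nat.log 2 n + 1 : ℕ) : ℝ) ^ 3) := by
    rw [le_div_iff₀ (by positivity)]
    have h1 : (256 : ℝ) * ((Nat.log 2 n + 1 : ℕ) : ℝ) ^ 3 ≤ Real.exp 10 * Real.exp (3 * w) := by
      have h2 : ((Nat.log 2 n + 1 : ℕ) : ℝ) ^ 3 ≤ (2 * u) ^ 3 := by gcongr
      have h3 : Real.exp (3 * w) = u ^ 3 := by
        rw [← hexpw, ← Real.exp_nat_mul]
        norm_num
      have h4 : (2048 : ℝ) ≤ Real.exp 10 := by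
        have h5 : Real.exp 10 = (Real.exp 1) ^ 10 := by
          rw [← Real.exp_nat_mul]
          norm_num
        rw [h5]
        have h6 : (2.5 : ℝ) ≤ Real.exp 1 := by
          have := Real.exp_one_gt_d9
          linarith
        calc (2048 : ℝ) ≤ 2.5 ^ 10 := by norm_num
          _ ≤ (Real.exp 1) ^ 10 := by gcongr
      rw [h3]
      calc (256 : ℝ) * ((Nat.log 2 n + 1 : ℕ) : ℝ) ^ 3 ≤ 256 * (2 * u) ^ 3 := by gcongr
        _ = 2048 * u ^ 3 := by ring
        _ ≤ Real.exp 10 * u ^ 3 := by gcongr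
    have h2 : Real.exp (0.6 * k) ≤ (2 : ℝ) ^ k := by
      have e : (2 : ℝ) ^ k = Real.exp (Real.log 2 * k) := by
        rw [mul_comm, Real.exp_nat_mul, Real.exp_log (by norm_num)]
      rw [e]
      apply Real.exp_le_exp.2
      have := Real.log_two_gt_d9
      nlinarith
    have h3 : (n : ℝ) ^ (1 + 1 / 256 / w) = Real.exp (u * (1 + 1 / 256 / w)) := by
      rw [Real.rpow_def_of_pos hnpos, ← hu]
    calc (n : ℝ) ^ (1 + 1 / 256 / w) * (256 * ((Nat.log 2 n + 1 : ℕ) : ℝ) ^ 3)
        ≤ Real.exp (u * (1 + 1 / 256 / w)) * (Real.exp 10 * Real.exp (3 * w)) := by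
          rw [h3]
          gcongr
      _ = Real.exp (u * (1 + 1 / 256 / w) + (10 + 3 * w)) := by
          rw [Real.exp_add, Real.exp_add]
      _ ≤ Real.exp (u + 0.6 * k) := by
          apply Real.exp_le_exp.2
          have e1 : u * (1 + 1 / 256 / w) = u + (u / w) / 256 := by
            field_simp
          rw [e1]
          rw [hdiv] at hk_gt
          nlinarith
      _ = Real.exp u * Real.exp (0.6 * k) := Real.exp_add _ _
      _ ≤ n * 2 ^ k := by
          rw [hexpu]
          gcongr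
  have hge : (n : ℝ) ≤ (n : ℝ) ^ (1 + 1 / 256 / w) := by
    have h1 : (1 : ℝ) ≤ 1 + 1 / 256 / w := by
      have : (0 : ℝ) ≤ 1 / 256 / w := by positivity
      linarith
    calc (n : ℝ) = (n : ℝ) ^ (1 : ℝ) := (Real.rpow_one _).symm
      _ ≤ (n : ℝ) ^ (1 + 1 / 256 / w) := Real.rpow_le_rpow_of_exponent_le (by linarith) h1
  have hbig : (6 : ℝ) ≤ n * 2 ^ k / (64 * ((Nat.log 2 n + 1 : ℕ) : ℝ) ^ 3) := by
    have e : (n : ℝ) * 2 ^ k / (64 * ((Nat.log 2 n + 1 : ℕ) : ℝ) ^ 3) =
        4 * ((n : ℝ) * 2 ^ k / (256 * ((Nat.log 2 n + 1 : ℕ) : ℝ) ^ 3)) := by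
      field_simp
      ring
    rw [e]
    linarith
  exact hmain.trans (D_lower k n hk13 hsize hbig)

end Pool.Agent.Results.MP_cf6fa9_co.GapGrowth
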